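import Mathlib
import Pool.Agent.X238.Epg.Count

set_option autoImplicit false

/-!
# The bend-number of claw-free graphs is unbounded

For every `k` there is a claw-free graph (even a co-bipartite graph) whose bend-number is larger
than `k`. Quantitatively: if `N ^ (2 N) < 2 ^ (m ^ 2)` for `N = 2 m (k + 2)`, then some co-bipartite
graph on `2 m` vertices has bend-number larger than `k`; so there are co-bipartite graphs on `n`
vertices whose bend-number is at least a constant times `n / log n`.

Proof. A path with at most `k` bends consists of `k + 1` straight segments, given by `k + 2` grid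
points. Whether two paths share a grid edge depends only on the order of the first coordinates and
on the order of the second coordinates of these points. So there are at most `N ^ (2 N)` labelled
graphs on `2 m` vertices with a `k`-bend representation, while there are `2 ^ (m ^ 2)` graphs that
consist of two cliques on `m` vertices and edges between them; these have no induced claw, since
among three vertices two lie in the same clique.
-/

namespace Pool.Agent.Results.MP_fe8c60_co.ClawFreeUnbounded

open Pool.Agent.X238.Epg

/-- Claw-free graphs have unbounded bend-number. -/
theorem result :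
    (∀ k : ℕ, ∃ (V : Type) (_ : Fintype V) (G : SimpleGraph V),
      ClawFree G ∧ (k : ℕ∞) < bendNumber G) ∧
    (∀ m k : ℕ, ((m + m) * (k + 2)) ^ (2 * ((m + m) * (k + 2))) < 2 ^ (m * m) →
      ∃ G : SimpleGraph (Fin m ⊕ Fin m), ClawFree G ∧ Gᶜ.Colorable 2 ∧
        (k : ℕ∞) < bendNumber G) := by
  constructor
  · intro k
    obtain ⟨m, hm⟩ := numeric k
    obtain ⟨S, hS⟩ := exists_noRep m k hm
    exact ⟨Fin m ⊕ Fin m, inferInstance, coBip S, coBip_clawFree S, lt_bendNumber hS⟩
  · intro m k h
    obtain ⟨S, hS⟩ := exists_noRep m k h
    exact ⟨coBip S, coBip_clawFree S, coBip_compl S, lt_bendNumber hS⟩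

end Pool.Agent.Results.MP_fe8c60_co.ClawFreeUnbounded
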